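import Pool.Agent.Helper67.Rad.Defs
import Pool.Agent.Helper67.Rad.Max
import Pool.Agent.Helper67.Rad.Better

/-!
# MP_e55252_co, Q1: a locally maximal circle packing that is not globally maximal

A plane graph with 8 vertices and 14 edges has a packing `p` which is locally maximal for the ratio
of the smallest to the largest radius, and a packing `q` of larger ratio.  Neither packing has
overlapping disks, and both have the same outer triangle as the plane embedding of the graph.

In `p` three disks have radius `1` and the other five have radius `r = 0.0603036…`; in `q` the ratio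
is at least `0.0608`.
-/

namespace Pool.Agent.Results.MP_e55252_co.LocalNotGlobal

open Pool.Agent.Helper67.Rad

theorem result : ∃ (G : SimpleGraph (Fin 8)) (D : PlaneEmbedding G) (p q : Fin 8 → ℝ × ℝ × ℝ),
    p ∈ packings G D ∧ q ∈ packings G D ∧
    IsLocalMaxOn radiusRatio (packings G D) p ∧ radiusRatio p < radiusRatio q ∧
    NonOverlapping p ∧ NonOverlapping q ∧
    ∃ a b c, G.Adj a b ∧ G.Adj b c ∧ G.Adj c a ∧
      OuterTriangle D.pos a b c ∧ OuterTriangle (centre p) a b c ∧
      OuterTriangle (centre q) a b c := by
  obtain ⟨r, hr, hg⟩ := exists_rho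
  obtain ⟨k, hk, hk'⟩ := exists_k
  have hp := pp_mem hr hg
  have hq := qq_mem hk hk'
  refine ⟨G, D, pp r, qq k, hp, hq, local_max hr hg, ?_,
    nonOverlapping_of_apart (by norm_num) (pp_approx hr) phat_apart hp,
    nonOverlapping_of_apart (by norm_num) (qq_approx hk) qhat_apart hq,
    0, 1, 2, ?_, ?_, ?_, D_outer,
    outer_of_goodZ (by norm_num) (pp_approx hr) phat_good,
    outer_of_goodZ (by norm_num) (qq_approx hk) qhat_good⟩
  · have h1 := qq_ratio hk
    rw [ratio_pp]
    · rw [abs_le] at hr
      linarith [hr.2]
    · rw [abs_le] at hr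
      linarith [hr.2]
  · show adjB 0 1 = true
    decide
  · show adjB 1 2 = true
    decide
  · show adjB 2 0 = true
    decide

end Pool.Agent.Results.MP_e55252_co.LocalNotGlobal
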